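import Pool.Agent.TH563.CU.Off

/-!
# The term of an edge, for arbitrary labels and orders
-/

set_option autoImplicit false

namespace Pool.Agent.TH563.CU

open Pool.Agent.TH563.CV
open Pool.Agent.TH563.UV
open Pool.Agent.TH563.UV.Arb
open Pool.Agent.TH609.UV (fe)
open Pool.Agent.TH609.Z (HG hg_symm)
open Pool.Agent.W711.HT hiding XX gd
open scoped Real

/-- the part of the term which does not depend on the labels and the order -/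
noncomputable def WW (ψ ψ' u : ℂ) : ℂ :=
  2 * (rog (z1 ψ u) + rog (z2 ψ u) + rog (z1 ψ' u) + rog (z2 ψ' u)) -
    π * Complex.I / 2 * (Lg u ψ + Lg u ψ') + (π : ℂ) ^ 2 / 2

theorem gen_term (hS : S_SIG) (hI : S_INV) {ψ ψ' u : ℂ} (h : HG ψ ψ' u) (x : Piece)
    (ef : x.f = ofFl (fe ψ u)) (eg : x.g = ofFl (fe ψ' u)) (hi : x.Inner) (h1 : x.End)
    (h2 : x.swap.End) : ∃ k : ℤ, x.term = WW ψ ψ' u - π / 2 * (across x : ℤ) * (ψ + π) -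
      π / 2 * (across x.swap : ℤ) * (ψ' + π) +
      (π : ℂ) ^ 2 / 2 * ((bit x + bit x.swap : ℤ) : ℂ) + k * (π : ℂ) ^ 2 := by
  have h' := hg_symm h
  obtain ⟨l1, l2, l3⟩ := lrG h
  obtain ⟨r1, r2⟩ := lr3G h
  obtain ⟨r3, r4⟩ := lr3G h'
  have l2' := (lrG h').2.1
  obtain ⟨β, hβ⟩ : ∃ β, bit x = β := ⟨_, rfl⟩
  obtain ⟨β', hβ'⟩ : ∃ β', bit x.swap = β' := ⟨_, rfl⟩
  rw [hβ, hβ']
  obtain ⟨f, g, ⟨Fa, Fb, Fc, Fa', Fb', Fc'⟩, ⟨Ga, Gb, Gc, Ga', Gb', Gc'⟩,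
    ⟨Ba, Bb, Bc, Ba', Bb', Bc'⟩, ⟨Ha, Hb, Hc, Ha', Hb', Hc'⟩, n1, n2, n3, n4⟩ := x
  simp only at ef eg
  subst ef eg
  simp only [Piece.Inner] at hi
  simp only [Piece.End] at h1
  simp only [Piece.End, Piece.swap] at h2
  obtain ⟨⟨a1, a2⟩, ⟨b1, b2⟩, ⟨c1, c2⟩, ⟨d1, d2⟩, i1, i2, n12, n13, n14, n23, n24, n34⟩ := hi
  obtain ⟨e1, e2, e3, e4, e5, e6, e7, e8⟩ := h1
  obtain ⟨f1, f2, f3, f4, f5, f6, f7, f8⟩ := h2
  obtain rfl : Fc = 1 - Fa - Fb := by omega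
  obtain rfl : Fa' = 1 - Fa - Fb := by omega
  obtain rfl : Bb = Fb := by omega
  obtain rfl : Bc = 1 - Ba - Bb := by omega
  obtain rfl : Ba' = 1 - Ba - Bb := by omega
  obtain rfl : Fb' = Fa + Bb - Fc' := by omega
  obtain rfl : Bc' = Fc' := by omega
  obtain rfl : Bb' = Ba + Bb - Bc' := by omega
  obtain rfl : Gc = 1 - Ga - Gb := by omega
  obtain rfl : Ga' = 1 - Ga - Gb := by omega
  obtain rfl : Hb = Gb := by omega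
  obtain rfl : Hc = 1 - Ha - Hb := by omega
  obtain rfl : Ha' = 1 - Ha - Hb := by omega
  obtain rfl : Gb' = Ga + Hb - Gc' := by omega
  obtain rfl : Hc' = Gc' := by omega
  obtain rfl : Hb' = Ha + Hb - Hc' := by omega
  obtain rfl : Hc' = 2 - Bb - Bc' - Hb := by omega
  have hGa : Ga = Fa + Bb + Ba + 1 - Ha - 2 * Hb - Bc' := by omega
  obtain ⟨k, hk⟩ := core Fa Bb Bc' Ba Ga Hb (2 - Bb - Bc' - Hb) Ha n1 n2 n3 n4 n12 n13 n14 n23 n24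
    n34 (by omega) (by omega)
  have t1 := two_eqG hS hI h ⟨Fa, Bb, 1 - Fa - Bb, 1 - Fa - Bb, Fa + Bb - Bc', Bc'⟩ a1 a2 n1 n2 n3 n4
  have t2 := two_eqG hS hI h' ⟨Ga, Hb, 1 - Ga - Hb, 1 - Ga - Hb, Ga + Hb - (2 - Bb - Bc' - Hb),
    2 - Bb - Bc' - Hb⟩ b1 b2 n3 n2 n1 n4
  have t3 := two_eqG hS hI h ⟨Ba, Bb, 1 - Ba - Bb, 1 - Ba - Bb, Ba + Bb - Bc', Bc'⟩ c1 c2 n2 n1 n4 n3
  have t4 := two_eqG hS hI h' ⟨Ha, Hb, 1 - Ha - Hb, 1 - Ha - Hb, Ha + Hb - (2 - Bb - Bc' - Hb),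
    2 - Bb - Bc' - Hb⟩ d1 d2 n2 n3 n4 n1
  refine ⟨k, ?_⟩
  change (if (n1 < n2 ↔ n4 < n3) then (0 : ℤ) else 1) = β at hβ
  change (if (n3 < n2 ↔ n4 < n1) then (0 : ℤ) else 1) = β' at hβ'
  rw [hβ, hβ'] at hk
  have hk' := congrArg (Int.cast : ℤ → ℂ) hk
  simp only [Piece.term, across, Piece.swap]
  rw [t1, t2, t3, t4]
  simp only
  generalize off Fa Bb (1 - Fa - Bb) n1 n2 n3 = o1 at hk' ⊢
  generalize off (1 - Fa - Bb) (Fa + Bb - Bc') Bc' n1 n3 n4 = o2 at hk' ⊢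
  generalize off Ga Hb (1 - Ga - Hb) n3 n2 n1 = o3 at hk' ⊢
  generalize off (1 - Ga - Hb) (Ga + Hb - (2 - Bb - Bc' - Hb)) (2 - Bb - Bc' - Hb) n3 n1 n4 = o4
    at hk' ⊢
  generalize off Ba Bb (1 - Ba - Bb) n2 n1 n4 = o5 at hk' ⊢
  generalize off (1 - Ba - Bb) (Ba + Bb - Bc') Bc' n2 n4 n3 = o6 at hk' ⊢
  generalize off Ha Hb (1 - Ha - Hb) n2 n3 n4 = o7 at hk' ⊢
  generalize off (1 - Ha - Hb) (Ha + Hb - (2 - Bb - Bc' - Hb)) (2 - Bb - Bc' - Hb) n2 n4 n1 = o8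
    at hk' ⊢
  simp only [pos, extRogers, WW]
  rw [r1, r2, r3, r4, ← l2, ← l2']
  subst hGa
  push_cast at hk' ⊢
  linear_combination ((π : ℂ) ^ 2 / 6) * hk' +
    (π / 2 * (Bc' - Bb) * (ψ + π) + π / 2 * (2 - Bb - Bc' - 2 * Hb) * (ψ' + π)) * Complex.I_sq

end Pool.Agent.TH563.CU
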