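import Pool.Agent.TH563.CV.SumV

/-!
# The order of the vertices, for arbitrary labels
-/

set_option autoImplicit false

namespace Pool.Agent.TH563.CU

open Pool.Agent.TH563.CV

/-- do the orders in the two disks at the end `p` disagree -/
def bit (x : Piece) : ℤ := if (x.n1 < x.n2 ↔ x.n4 < x.n3) then 0 else 1

/-- the label of the path across the edge at the end `p` -/
def across (x : Piece) : ℤ := x.F.a + x.F.a' + x.F.c' - 1

/-- the sum of the differences -/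
def offs (x : Piece) : ℤ :=
  off x.F.a x.F.b x.F.c x.n1 x.n2 x.n3 + off x.F.a' x.F.b' x.F.c' x.n1 x.n3 x.n4 +
    (off x.G.a x.G.b x.G.c x.n3 x.n2 x.n1 + off x.G.a' x.G.b' x.G.c' x.n3 x.n1 x.n4) +
    (off x.B.a x.B.b x.B.c x.n2 x.n1 x.n4 + off x.B.a' x.B.b' x.B.c' x.n2 x.n4 x.n3 +
    (off x.H.a x.H.b x.H.c x.n2 x.n3 x.n4 + off x.H.a' x.H.b' x.H.c' x.n2 x.n4 x.n1))

lemma core (Fa Fb Fc' Ba Ga Gb Gc' Ha n1 n2 n3 n4 : ℤ)
    (n12 : n1 ≠ n2) (n13 : n1 ≠ n3) (n14 : n1 ≠ n4) (n23 : n2 ≠ n3) (n24 : n2 ≠ n4) (n34 : n3 ≠ n4)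
    (e1 : 1 - Fa - Fb + Ga + (1 - Ba - Fb + (Ha + Gb - Gc')) = 1)
    (e2 : Fb + Fc' + (Gb + Gc') = 2) :
    (6 : ℤ) ∣ (off Fa Fb (1 - Fa - Fb) n1 n2 n3 +
      off (1 - Fa - Fb) (Fa + Fb - Fc') Fc' n1 n3 n4 +
      (off Ga Gb (1 - Ga - Gb) n3 n2 n1 + off (1 - Ga - Gb) (Ga + Gb - Gc') Gc' n3 n1 n4) +
      (off Ba Fb (1 - Ba - Fb) n2 n1 n4 + off (1 - Ba - Fb) (Ba + Fb - Fc') Fc' n2 n4 n3 +
      (off Ha Gb (1 - Ha - Gb) n2 n3 n4 + off (1 - Ha - Gb) (Ha + Gb - Gc') Gc' n2 n4 n1))) -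
      3 * (1 + (if (n1 < n2 ↔ n4 < n3) then 0 else 1) +
        (if (n3 < n2 ↔ n4 < n1) then 0 else 1)) := by
  have t21 : n2 < n1 ↔ ¬ n1 < n2 := by omega
  have t31 : n3 < n1 ↔ ¬ n1 < n3 := by omega
  have t41 : n4 < n1 ↔ ¬ n1 < n4 := by omega
  have t32 : n3 < n2 ↔ ¬ n2 < n3 := by omega
  have t42 : n4 < n2 ↔ ¬ n2 < n4 := by omega
  have t43 : n4 < n3 ↔ ¬ n3 < n4 := by omega
  by_cases s12 : n1 < n2 <;> by_cases s13 : n1 < n3 <;> by_cases s14 : n1 < n4 <;>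
    by_cases s23 : n2 < n3 <;> by_cases s24 : n2 < n4 <;> by_cases s34 : n3 < n4 <;>
    first
    | (exfalso; omega)
    | (simp only [off, t21, t31, t41, t32, t42, t43, s12, s13, s14, s23, s24, s34,
        not_true_eq_false, not_false_eq_true, and_true, and_false, and_self, if_true, if_false,
        iff_true, iff_false, iff_self]
       omega)

end Pool.Agent.TH563.CU
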