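import Pool.Agent.W120.VC.Tet
import Pool.Agent.W737.AR.Gmt

/-!
# The supporting hyperplane inequality, strict version
-/

set_option autoImplicit false

namespace Pool.Agent.TH563.CU

open Real Set Filter MeasureTheory Pool.Agent.W709.VC Pool.Agent.W120.VC
open Pool.Agent.W719.AR (Fl)

open scoped Topology

theorem form_pos (a b X Y Z : ℝ) (hsum : X + Y + Z = π) (hX : 0 < sin X) (hY : 0 < sin Y)
    (hZ : 0 < sin Z) (hab : a ≠ 0 ∨ b ≠ 0) :
    0 < a ^ 2 * (cos X * sin Y * sin Z) + b ^ 2 * (cos Y * sin X * sin Z)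
      + (a + b) ^ 2 * (cos Z * sin X * sin Y) := by
  have hZ' : Z = π - (X + Y) := by linarith
  have e : a ^ 2 * (cos X * sin Y * sin Z) + b ^ 2 * (cos Y * sin X * sin Z)
      + (a + b) ^ 2 * (cos Z * sin X * sin Y)
      = (a * sin Y + cos Z * (b * sin X)) ^ 2 + (1 - cos Z ^ 2) * (b * sin X) ^ 2 := by
    have hX := sin_sq_add_cos_sq X
    have hY := sin_sq_add_cos_sq Y
    rw [hZ', sin_pi_sub, cos_pi_sub, sin_add, cos_add]
    linear_combination (a ^ 2 * sin Y ^ 2) * hX + (b ^ 2 * sin X ^ 2) * hY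
  rw [e]
  have h1 : 1 - cos Z ^ 2 = sin Z ^ 2 := by
    have := sin_sq_add_cos_sq Z
    linarith
  rw [h1]
  by_cases hb : b = 0
  · have ha : a ≠ 0 := by
      rcases hab with h | h
      · exact h
      · exact absurd hb h
    rw [hb]
    have : 0 < (a * sin Y) ^ 2 := by positivity
    simp only [zero_mul, mul_zero, add_zero]
    nlinarith
  · have : 0 < sin Z ^ 2 * (b * sin X) ^ 2 := by positivity
    nlinarith [sq_nonneg (a * sin Y + cos Z * (b * sin X))]

theorem tet_lt {x y z x' y' z' : ℝ} (hx : 0 < x) (hy : 0 < y) (hz : 0 < z) (hsum : x + y + z = π)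
    (hx' : 0 ≤ x') (hy' : 0 ≤ y') (hz' : 0 ≤ z') (hsum' : x' + y' + z' = π)
    (hne : x' ≠ x ∨ y' ≠ y) :
    GapVol.lob x' + GapVol.lob y' + GapVol.lob z' < GapVol.lob x + GapVol.lob y + GapVol.lob z -
    (x' - x) * Real.log (2 * Real.sin x) - (y' - y) * Real.log (2 * Real.sin y) -
    (z' - z) * Real.log (2 * Real.sin z) := by
  set a := x' - x with ha
  set b := y' - y with hb
  set c := z' - z with hc
  have habc : a + b + c = 0 := by rw [ha, hb, hc]; linarith
  have hab : a ≠ 0 ∨ b ≠ 0 := by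
    rcases hne with h | h
    · exact Or.inl (sub_ne_zero.2 h)
    · exact Or.inr (sub_ne_zero.2 h)
  have hpos : ∀ t ∈ Ico (0:ℝ) 1, (0 < x + t * a ∧ 0 < y + t * b ∧ 0 < z + t * c) ∧
      (x + t * a < π ∧ y + t * b < π ∧ z + t * c < π) ∧
      (x + t * a) + (y + t * b) + (z + t * c) = π := by
    intro t ht
    have h1 : 0 < x + t * a := by
      have : x + t * a = (1 - t) * x + t * x' := by rw [ha]; ring
      rw [this]
      have := mul_pos (sub_pos.2 ht.2) hx
      have := mul_nonneg ht.1 hx'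
      linarith
    have h2 : 0 < y + t * b := by
      have : y + t * b = (1 - t) * y + t * y' := by rw [hb]; ring
      rw [this]
      have := mul_pos (sub_pos.2 ht.2) hy
      have := mul_nonneg ht.1 hy'
      linarith
    have h3 : 0 < z + t * c := by
      have : z + t * c = (1 - t) * z + t * z' := by rw [hc]; ring
      rw [this]
      have := mul_pos (sub_pos.2 ht.2) hz
      have := mul_nonneg ht.1 hz'
      linarith
    have h4 : (x + t * a) + (y + t * b) + (z + t * c) = π := by
      have : (x + t * a) + (y + t * b) + (z + t * c) = (x + y + z) + t * (a + b + c) := by ring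
      rw [this, habc, hsum]; ring
    exact ⟨⟨h1, h2, h3⟩, ⟨by linarith, by linarith, by linarith⟩, h4⟩
  set h : ℝ → ℝ := fun t => a * Real.log (2 * sin (x + t * a)) + b * Real.log (2 * sin (y + t * b))
    + c * Real.log (2 * sin (z + t * c)) with hh
  have hderiv : ∀ t ∈ Ico (0:ℝ) 1, HasDerivAt h
      (a ^ 2 * (cos (x + t * a) / sin (x + t * a)) + b ^ 2 * (cos (y + t * b) / sin (y + t * b))
        + c ^ 2 * (cos (z + t * c) / sin (z + t * c))) t := by
    intro t ht
    obtain ⟨⟨p1, p2, p3⟩, ⟨q1, q2, q3⟩, hs⟩ := hpos t ht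
    exact ((log_sin_deriv p1 q1).add (log_sin_deriv p2 q2)).add (log_sin_deriv p3 q3)
  have hmono : StrictMonoOn h (Ico 0 1) := by
    apply strictMonoOn_of_deriv_pos (convex_Ico 0 1)
    · exact fun t ht => (hderiv t ht).continuousAt.continuousWithinAt
    · intro t ht
      rw [interior_Ico] at ht
      have ht' : t ∈ Ico (0:ℝ) 1 := ⟨ht.1.le, ht.2⟩
      rw [(hderiv t ht').deriv]
      obtain ⟨⟨p1, p2, p3⟩, ⟨q1, q2, q3⟩, hs⟩ := hpos t ht'
      have s1 := Real.sin_pos_of_pos_of_lt_pi p1 q1
      have s2 := Real.sin_pos_of_pos_of_lt_pi p2 q2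
      have s3 := Real.sin_pos_of_pos_of_lt_pi p3 q3
      have hf := form_pos a b _ _ _ hs s1 s2 s3 hab
      have hc2 : c ^ 2 = (a + b) ^ 2 := by
        have : c = -(a + b) := by linarith
        rw [this]; ring
      have e : a ^ 2 * (cos (x + t * a) / sin (x + t * a))
          + b ^ 2 * (cos (y + t * b) / sin (y + t * b))
          + c ^ 2 * (cos (z + t * c) / sin (z + t * c))
          = (a ^ 2 * (cos (x + t * a) * sin (y + t * b) * sin (z + t * c))
            + b ^ 2 * (cos (y + t * b) * sin (x + t * a) * sin (z + t * c))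
            + (a + b) ^ 2 * (cos (z + t * c) * sin (x + t * a) * sin (y + t * b)))
            / (sin (x + t * a) * sin (y + t * b) * sin (z + t * c)) := by
        rw [hc2]
        clear hf hs
        generalize sin (x + t * a) = S1 at *
        generalize sin (y + t * b) = S2 at *
        generalize sin (z + t * c) = S3 at *
        generalize cos (x + t * a) = C1 at *
        generalize cos (y + t * b) = C2 at *
        generalize cos (z + t * c) = C3 at *
        field_simp
      rw [e]
      exact div_pos hf (by positivity)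
  set f : ℝ → ℝ := fun t => GapVol.lob (x + t * a) + GapVol.lob (y + t * b)
    + GapVol.lob (z + t * c) + t * h 0 with hf
  have hlin : ∀ (x a t : ℝ), HasDerivAt (fun t : ℝ => x + t * a) a t := fun x a t => by
    simpa using ((hasDerivAt_id t).mul_const a).const_add x
  have hfderiv : ∀ t ∈ Ico (0:ℝ) 1, HasDerivAt f (-h t + h 0) t := by
    intro t ht
    obtain ⟨⟨p1, p2, p3⟩, ⟨q1, q2, q3⟩, hs⟩ := hpos t ht
    have d1 := (lob_deriv p1 q1).comp t (hlin x a t)
    have d2 := (lob_deriv p2 q2).comp t (hlin y b t)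
    have d3 := (lob_deriv p3 q3).comp t (hlin z c t)
    have d4 : HasDerivAt (fun t : ℝ => t * h 0) (h 0) t := by
      simpa using (hasDerivAt_id t).mul_const (h 0)
    have d5 := ((d1.add d2).add d3).add d4
    refine d5.congr_deriv ?_
    simp only [hh]
    ring
  have hcont : Continuous f := by
    have := GapVol.lob_cont
    simp only [hf]
    fun_prop
  have hanti : StrictAntiOn f (Icc 0 1) := by
    apply strictAntiOn_of_deriv_neg (convex_Icc 0 1) hcont.continuousOn
    intro t ht
    rw [interior_Icc] at ht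
    rw [(hfderiv t ⟨ht.1.le, ht.2⟩).deriv]
    have := hmono (left_mem_Ico.2 one_pos) ⟨ht.1.le, ht.2⟩ ht.1
    linarith
  have hfin := hanti (left_mem_Icc.2 zero_le_one) (right_mem_Icc.2 zero_le_one) zero_lt_one
  simp only [hf, hh, zero_mul, add_zero, one_mul] at hfin
  have e1 : x + a = x' := by rw [ha]; ring
  have e2 : y + b = y' := by rw [hb]; ring
  have e3 : z + c = z' := by rw [hc]; ring
  rw [e1, e2, e3] at hfin
  linarith

/-- equality in the tangent inequality -/
lemma vol_eq (x y : Fl) (hx : x.Pos) (hy : y.Pos) (h : y.vol = x.vol - Pool.Agent.W737.AR.Lf x y) : y = x := by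
  obtain ⟨h1, h2, h3, h4, h5, h6, h7, h8⟩ := hx
  obtain ⟨k1, k2, k3, k4, k5, k6, k7, k8⟩ := hy
  have e1 := tet x.a x.b x.c y.a y.b y.c h1 h2 h3 h4 k1.le k2.le k3.le k4
  have e2 := tet x.a' x.b' x.c' y.a' y.b' y.c' h5 h6 h7 h8 k5.le k6.le k7.le k8
  unfold Fl.vol Pool.Agent.W737.AR.Lf at h
  have a1 : y.a = x.a ∧ y.b = x.b := by
    by_contra hne
    have := tet_lt h1 h2 h3 h4 k1.le k2.le k3.le k4 (by tauto)
    linarith
  have a2 : y.a' = x.a' ∧ y.b' = x.b' := by
    by_contra hne
    have := tet_lt h5 h6 h7 h8 k5.le k6.le k7.le k8 (by tauto)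
    linarith
  obtain ⟨b1, b2⟩ := a1
  obtain ⟨b3, b4⟩ := a2
  have b5 : y.c = x.c := by linarith
  have b6 : y.c' = x.c' := by linarith
  cases x
  cases y
  simp only at b1 b2 b3 b4 b5 b6
  subst b1 b2 b3 b4 b5 b6
  rfl

end Pool.Agent.TH563.CU
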