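import Pool.Agent.TH563.CU.Gen

/-!
# The sum of the dilogarithms does not depend on the flattening
-/

set_option autoImplicit false

namespace Pool.Agent.TH563.CU

open Pool.Agent.TH563.CV
open Pool.Agent.TH563.UV
open Pool.Agent.TH563.UV.Arb
open Pool.Agent.TH563.V
open Pool.Agent.TH858.J1745
open Pool.Agent.TH609.UV (fe)
open Pool.Agent.TH609.Z (HG hg_symm)
open Pool.Agent.W711.HT hiding XX gd
open scoped Real

lemma bit_chain : ∀ (l : List Piece) (a : Piece),
    (a :: l).IsChain (fun x y => x.n1 < x.n2 ↔ y.n4 < y.n3) → ∀ z ∈ (a :: l).getLast?,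
    ∃ j : ℤ, ((a :: l).map bit).sum = (if (z.n1 < z.n2 ↔ a.n4 < a.n3) then 0 else 1) + 2 * j
  | [], a, _, z, hz => by
    refine ⟨0, ?_⟩
    have hz' : a = z := by simpa using hz
    subst hz'
    simp [bit]
  | b :: l, a, h, z, hz => by
    rw [List.isChain_cons_cons] at h
    have hz' : z ∈ (b :: l).getLast? := by
      rw [List.getLast?_cons_cons] at hz
      exact hz
    obtain ⟨j, hj⟩ := bit_chain l b h.2 z hz'
    rw [List.map_cons, List.sum_cons, hj]
    have h1 := h.1
    unfold bit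
    by_cases p1 : a.n1 < a.n2 <;> by_cases p2 : a.n4 < a.n3 <;> by_cases p3 : z.n1 < z.n2 <;>
      simp only [p1, true_iff, false_iff] at h1 <;> simp only [p1, p2, p3, h1, true_iff, false_iff,
        if_true, if_false, not_true_eq_false, iff_self]
    all_goals first
      | exact ⟨j, by omega⟩
      | exact ⟨j + 1, by omega⟩

lemma bit_sum {b : Bool} {w : ℤ} {l : List Piece} (hl : l ≠ []) (h : VertexFlat b w l) :
    ∃ j : ℤ, (l.map bit).sum = w + 2 * j := by
  obtain ⟨-, -, -, h4, h5⟩ := h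
  cases l with
  | nil => exact absurd rfl hl
  | cons a l =>
    obtain ⟨z, hz⟩ : ∃ z, z ∈ (a :: l).getLast? := by
      rw [List.getLast?_eq_some_getLast (List.cons_ne_nil a l)]
      exact ⟨_, rfl⟩
    obtain ⟨j, hj⟩ := bit_chain l a h4 z hz
    have h6 := h5 z hz a (by simp)
    rw [hj]
    by_cases hw : Even w
    · rw [if_pos (h6.2 hw)]
      obtain ⟨r, hr⟩ := hw
      exact ⟨j - r, by rw [hr]; ring⟩
    · rw [if_neg (fun h => hw (h6.1 h))]
      obtain ⟨r, hr⟩ := Int.not_even_iff_odd.1 hw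
      exact ⟨j - r, by rw [hr]; ring⟩

/-- the part of the sum which does not depend on the flattening -/
noncomputable def RR (D : ℕ) (e : ℕ → ℕ → ℂ → ℂ → ℂ) : ℕ → PB → ℂ
  | _, .vx _ _ _ => 0
  | k, .br t c => RR D e k t + RR D e (kc D c) c + (WW t.rz c.rz (uu D e k t c) -
      π / 2 * ((if c.bl then 0 else 2 : ℤ) : ℂ) * (c.rz + π) + (π : ℂ) ^ 2 / 2 * (c.wt : ℤ))

theorem cv_gen (hS : S_SIG) (hI : S_INV) (D : ℕ) (e : ℕ → ℕ → ℂ → ℂ → ℂ) :
    ∀ (p : PB) (k : ℕ), hpv D e k p → ∀ x : FlatTree, x.angles = ofAB (agv D e k p) → x.Below →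
      (∀ y ∈ x.edges, y.End) → ∃ n : ℤ, x.complexVolume = RR D e k p -
        π / 2 * (((x.edges.map across).sum : ℤ) : ℂ) * (p.rz + π) +
        (π : ℂ) ^ 2 / 2 * (((x.edges.map bit).sum : ℤ) : ℂ) + n * (π : ℂ) ^ 2
  | .vx b a z, k, _, x, hx, _, _ => by
    refine ⟨0, ?_⟩
    cases x with
    | single b' a' => simp [FlatTree.complexVolume, RR, FlatTree.edges]
    | join t' c' y => simp [FlatTree.angles, agv, ofAB] at hx
  | .br t c, k, hp, x, hx, hB, hE => by
    cases x with
    | single b' a' => simp [FlatTree.angles, agv, ofAB] at hx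
    | join t' c' y =>
      simp only [FlatTree.angles, agv, ofAB, AngleTree.join.injEq] at hx
      obtain ⟨x1, x2, x3, x4⟩ := hx
      obtain ⟨b1, b2, b3, b4⟩ := hB
      obtain ⟨n1, n2, n3⟩ := hp
      obtain ⟨k1, q1⟩ := cv_gen hS hI D e t k n1 t' x1 b1 (fun z hz => hE z (by
        simp only [FlatTree.edges, List.mem_append]
        exact Or.inl hz))
      obtain ⟨k2, q2⟩ := cv_gen hS hI D e c (kc D c) n2 c' x2 b2
        (fun z hz => b4.1 z (List.mem_cons_of_mem _ hz))
      obtain ⟨k3, q3⟩ := gen_term hS hI (hg_symm n3) y x3 x4 b3 (hE y (by simp [FlatTree.edges]))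
        (b4.1 _ (by simp))
      obtain ⟨k4, q4⟩ := bit_sum (by simp) b4
      have q5 := b4.2.1
      rw [x2, circle_of, agv_bl] at q5
      rw [x2, weight_of, agv_wt] at q4
      rw [List.map_cons, List.sum_cons] at q4 q5
      change across y.swap + (c'.edges.map across).sum = _ at q5
      have q4' := congrArg (Int.cast : ℤ → ℂ) q4
      have q5' := congrArg (Int.cast : ℤ → ℂ) q5
      refine ⟨k1 + k2 + k3 + k4, ?_⟩
      simp only [FlatTree.complexVolume, FlatTree.edges, List.map_append, List.map_cons,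
        List.map_nil, List.sum_append, List.sum_cons, List.sum_nil, add_zero, RR, PB.rz]
      rw [q1, q2, q3]
      push_cast at q4' q5' ⊢
      linear_combination (-(π / 2) * (c.rz + π)) * q5' + ((π : ℂ) ^ 2 / 2) * q4'

end Pool.Agent.TH563.CU
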