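import Pool.Agent.TH563.CU.TetS
import Pool.Agent.TH563.CV.SumV

/-!
# The angle structure of maximal volume is unique
-/

set_option autoImplicit false

namespace Pool.Agent.TH563.CU

open Pool.Agent.TH563.UV
open Pool.Agent.TH563.UV.Arb
open Pool.Agent.TH563.V
open Pool.Agent.TH858.J1745
open Pool.Agent.TH609.UV (fe VL vt_re vl_im shape_cases wt_eq vertex)
open Pool.Agent.TH609.Z (HG hg_symm hg_of_hq HB exists_g vok shp)
open Pool.Agent.W711.HT hiding XX gd
open Pool.Agent.W719.AR (Fl)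
open Pool.Agent.W737.AR (vol_le)
open scoped Real

lemma agv_unique (D : ℕ) (e : ℕ → ℕ → ℂ → ℂ → ℂ) (p : PB) (k : ℕ) (hp : hpv D e k p) (y : AB)
    (h : y.shape = p.shape) (hy : y.OK) (hv : y.vol = (agv D e k p).vol - 2 * LLv D e k p y) :
    y = agv D e k p := by
  induction p generalizing y k with
  | vx b a z =>
    rcases shape_cases _ y h with ⟨b', a', z', h1, rfl⟩ | ⟨t, c, t', c', f, g, h1, -⟩
    · simp only [PB.vx.injEq] at h1
      obtain ⟨rfl, rfl, -⟩ := h1
      rfl
    · simp at h1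
  | br t c iht ihc =>
    rcases shape_cases _ y h with ⟨b', a', z', h1, -⟩ | ⟨t, c, t', c', f, g, h1, rfl, h2, h3⟩
    · simp at h1
    · simp only [PB.br.injEq] at h1
      obtain ⟨rfl, rfl⟩ := h1
      obtain ⟨k1, k2, k3, k4, k5, k6⟩ := hy
      obtain ⟨n1, n2, n3⟩ := hp
      have e1 := vol_LLv D e W120.VC.tet _ k n1 t' h2 k1
      have e2 := vol_LLv D e W120.VC.tet _ (kc D c) n2 c' h3 k2
      have e3 := vol_le W120.VC.tet _ f (shp (hg_symm n3)).1 k3
      have e4 := vol_le W120.VC.tet _ g (shp n3).1 k4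
      simp only [LLv, AB.vol, agv] at hv
      have q1 := iht k n1 t' h2 k1 (by linarith)
      have q2 := ihc (kc D c) n2 c' h3 k2 (by linarith)
      have q3 := vol_eq _ f (shp (hg_symm n3)).1 k3 (by linarith)
      have q4 := vol_eq _ g (shp n3).1 k4 (by linarith)
      rw [q1, q2, q3, q4]
      rfl

/-- an angle structure of maximal volume is the one of the critical configuration -/
theorem ang_unique (D : ℕ) (e : ℕ → ℕ → ℂ → ℂ → ℂ) (p : PB) (k : ℕ) (hp : hpv D e k p)
    (hcr : lcv D e k p) (hE : VL p.bl p.wt p.rz (lgv D e k p)) (y : AB)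
    (h : y.shape = p.shape) (hy : y.IsAng) (hv : y.vol = (agv D e k p).vol) :
    y = agv D e k p := by
  refine agv_unique D e p k hp y h hy.1 ?_
  have h2 := LLv_eq D e p k hp hcr y h hy.1
  have h3 := vertex p.bl p.rz p.wt (elv D e k p y) (elv_pos D e k p y h hy.1)
    (by rw [elv_map D e k p y h, ← (wt_eq p y h).1, ← (wt_eq p y h).2]
        exact hy.2)
    (by rw [elv_lg D e k p y h]; exact hE)
  rw [h3] at h2
  rw [h2, hv]
  ring

end Pool.Agent.TH563.CU
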