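import Pool.Agent.TH563.CU.Tree
import Pool.Agent.TH563.CU.UniqA
import Pool.Agent.TH563.CV.CS

/-!
# The complex volume does not depend on the flattening
-/

set_option autoImplicit false

namespace Pool.Agent.TH563.CU

open Pool.Agent.TH563.CV
open Pool.Agent.TH563.UV
open Pool.Agent.TH563.UV.Arb
open Pool.Agent.TH563.V
open Pool.Agent.TH563.V.Arb
open Pool.Agent.TH563.Z (SDZ Adm et)
open Pool.Agent.TH858.J1745
open Pool.Agent.TH609.UV (fe VL vt_re vl_im shape_cases wt_eq vertex)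
open Pool.Agent.TH609.Z (HG hg_symm hg_of_hq HB exists_g vok shp)
open Pool.Agent.W711.HT hiding XX gd
open Pool.Agent.W719.AR (Fl)
open Pool.Agent.W719.AX (EXY)
open scoped Real

/-- the sum of the dilogarithms is the same, modulo `π²`, for all flattenings of angle structures
with the volume `V` -/
def Unq (t : Tree) (V : ℝ) : Prop := ∀ x x' : FlatTree,
  (x.angles.tree = t ∧ IsAngle x.angles ∧ vol x.angles = V ∧ x.IsFlat) →
  (x'.angles.tree = t ∧ IsAngle x'.angles ∧ vol x'.angles = V ∧ x'.IsFlat) →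
    ∃ n : ℤ, x'.complexVolume = x.complexVolume + n * (π : ℂ) ^ 2

lemma ofFl_toFl (a : Angles) : ofFl (toFl a) = a := rfl

lemma of_to : ∀ y : AngleTree, ofAB (toAB y) = y
  | .single b a => rfl
  | .join t c f g => by
    simp only [toAB, ofAB, of_to t, of_to c]
    rfl

/-- the value of the sum at the root -/
lemma root_val (hS : S_SIG) (hI : S_INV) (D : ℕ) (e : ℕ → ℕ → ℂ → ℂ → ℂ) (p : PB) (k : ℕ)
    (hp : hpv D e k p) (hn : 1 ≤ p.nc) (x : FlatTree) (hx : x.angles = ofAB (agv D e k p))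
    (hf : x.IsFlat) : ∃ n : ℤ, x.complexVolume = RR D e k p -
      π / 2 * ((if p.bl then 0 else 2 : ℤ) : ℂ) * (p.rz + π) + (π : ℂ) ^ 2 / 2 * (p.wt : ℤ) +
      n * (π : ℂ) ^ 2 := by
  obtain ⟨hB, hV⟩ := hf
  obtain ⟨n1, h1⟩ := cv_gen hS hI D e p k hp x hx hB hV.1
  have hne : x.edges ≠ [] := by
    cases x with
    | single b a =>
      cases p with
      | vx b' a' z => simp [PB.nc] at hn
      | br t c => simp [FlatTree.angles, agv, ofAB] at hx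
    | join t c y => simp [FlatTree.edges]
  obtain ⟨n2, h2⟩ := bit_sum hne hV
  have h3 := hV.2.1
  rw [hx, circle_of, agv_bl] at h3
  rw [hx, weight_of, agv_wt] at h2
  change (x.edges.map across).sum = _ at h3
  refine ⟨n1 + n2, ?_⟩
  rw [h1, h2, h3]
  push_cast
  ring

/-- the conditions at a critical configuration imply uniqueness -/
def S_GEOU : Prop := ∀ (ρ τ κ c : ℝ) (s dl : ℂ → ℂ → ℂ), KD ρ τ κ c s dl →
  ∀ (D : ℕ) (S : ℕ → ℂ → ℂ → ℂ),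
  (∀ k, 3 ≤ k → k < D → Adm (et k) ∧ ∃ (r c' C : ℝ) (dl' : ℂ → ℂ → ℂ),
    SDZ (et k) r c' C (S k) dl') →
  ∃ g : ℝ, 0 < g ∧ ∀ p : PB, CV D S s ρ τ g (kz D p.bl p.nc p.wt) p →
    VCV ρ τ g (kz D p.bl p.nc p.wt) p.bl p.wt p.rz (gv D S s (kz D p.bl p.nc p.wt) p) →
    1 ≤ p.nc →
    IsGreatest {W : ℝ | ∃ y : AB, y.shape = p.shape ∧ y.IsAng ∧ y.vol = W}
      (2 * π * (vt p.bl p.wt p.rz + vv D S s (kz D p.bl p.nc p.wt) p).re) ∧
    ∀ t : Tree, p.shape = toTb t →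
      Unq t (2 * π * (vt p.bl p.wt p.rz + vv D S s (kz D p.bl p.nc p.wt) p).re)

theorem geou : S_GEOU := by
  intro ρ τ κ c s dl hK D S hSD
  have H : ∀ k, ∃ (r : ℝ) (dl' : ℂ → ℂ → ℂ), 3 ≤ k → k < D → Adm (et k) ∧
      ∃ c' C, SDZ (et k) r c' C (S k) dl' := by
    intro k
    by_cases h : 3 ≤ k ∧ k < D
    · obtain ⟨h1, r, c', C, dl', h2⟩ := hSD k h.1 h.2
      exact ⟨r, dl', fun _ _ => ⟨h1, c', C, h2⟩⟩
    · exact ⟨0, fun _ _ => 0, fun h1 h2 => absurd ⟨h1, h2⟩ h⟩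
  choose r Dl H using H
  have hS : ∀ k, 3 ≤ k → k < D → ∃ c' C, SDZ (et k) (r k) c' C (S k) (Dl k) :=
    fun k h1 h2 => (H k h1 h2).2
  obtain ⟨g, hg0, hg⟩ := exists_g' (fun k g => 3 ≤ k → k < D → ∀ ψ φ : ℂ, ‖ψ‖ ≤ g →
      ‖φ - et k * Complex.I‖ ≤ g → HB (et k) (r k) (Dl k) ψ φ)
    (fun k g g' hgg h h1 h2 ψ φ a b => h h1 h2 ψ φ (a.trans hgg) (b.trans hgg))
    (by
      intro k
      by_cases h : 3 ≤ k ∧ k < D
      · obtain ⟨hA, c', C, h2⟩ := H k h.1 h.2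
        obtain ⟨g, hg0, hg⟩ := exists_g hA h2
        exact ⟨g, hg0, fun _ _ => hg⟩
      · exact ⟨1, one_pos, fun h1 h2 => absurd ⟨h1, h2⟩ h⟩) D
  have hg' : ∀ k, 3 ≤ k → k < D → ∀ ψ φ : ℂ, ‖ψ‖ ≤ g →
      ‖φ - et k * Complex.I‖ ≤ g → HB (et k) (r k) (Dl k) ψ φ :=
    fun k h1 h2 => hg k h2 h1 h2
  refine ⟨g, hg0, fun p hCr hV hnc => ?_⟩
  set k := kz D p.bl p.nc p.wt with hkdef
  have hk : k ≠ 0 → 3 ≤ k ∧ k < D := fun h => (kz_ne h).2.2
  obtain ⟨i1, i2, i3, i4⟩ := indv hK hS hg' p k hk hCr (ps_of hK.hρ.1 hK.hτ.1 hV)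
  set e := ee dl Dl with he
  have hE : VL p.bl p.wt p.rz (lgv D e k p) := vl_of hV i1
  have hI' := vt_re hE
  have hval : 2 * π * (vt p.bl p.wt p.rz + vv D S s k p).re = hsv D e k p := by
    rw [Complex.add_re]
    linear_combination hI' + i4
  have hvol := agv_vol D e p k i2
  obtain ⟨g1, g2⟩ := agv_fl D e k p i2
  refine ⟨?_, fun t hp => ?_⟩
  · rw [hval]
    constructor
    · refine ⟨agv D e k p, agv_shape D e p k, ⟨agv_isok D e p k i2 i3, ?_⟩, hvol⟩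
      rw [agv_wt, agv_bl]
      refine vok g1 fun hb => ?_
      rw [g2]
      exact vl_im hE hb
    · rintro W ⟨y, hshape, hy, rfl⟩
      have h1 := vol_LLv D e W120.VC.tet p k i2 y hshape hy.1
      have h2 := LLv_eq D e p k i2 i3 y hshape hy.1
      have h3 := vertex p.bl p.rz p.wt (elv D e k p y) (elv_pos D e k p y hshape hy.1)
        (by rw [elv_map D e k p y hshape, ← (wt_eq p y hshape).1, ← (wt_eq p y hshape).2]
            exact hy.2)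
        (by rw [elv_lg D e k p y hshape]; exact hE)
      rw [h3] at h2
      rw [h2] at h1
      linarith
  have hS1 : S_SIG := sig der
  have hI2 : S_INV := inv (ref der) hS1
  have key : ∀ x : FlatTree, (x.angles.tree = t ∧ IsAngle x.angles ∧
      vol x.angles = 2 * π * (vt p.bl p.wt p.rz + vv D S s k p).re ∧ x.IsFlat) →
      x.angles = ofAB (agv D e k p) := by
    rintro x ⟨x1, x2, x3, x4⟩
    have h := ang_unique D e p k i2 i3 hE (toAB x.angles) (by rw [shape_to, x1, hp])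
      ((isAngle_to _).2 x2) (by rw [vol_to, x3, hval, hvol])
    rw [← h, of_to]
  intro x x' hx hx'
  obtain ⟨n, h1⟩ := root_val hS1 hI2 D e p k i2 hnc x (key x hx) hx.2.2.2
  obtain ⟨n', h2⟩ := root_val hS1 hI2 D e p k i2 hnc x' (key x' hx') hx'.2.2.2
  refine ⟨n' - n, ?_⟩
  rw [h1, h2]
  push_cast
  ring

theorem finvu (hM : S_MAINV) : ∃ K : ℝ, 0 < K ∧ ∀ t : Tree, OkT K (toTb t) →
    1 ≤ (toTb t).nc → ∃ V : ℝ,
      IsGreatest {W : ℝ | ∃ y : AB, y.shape = toTb t ∧ y.IsAng ∧ y.vol = W} V ∧ Unq t V := by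
  obtain ⟨ρ, τ, κ, c, s, dl, hKD, D, S, hS, hM⟩ := hM
  obtain ⟨g, hg, hG⟩ := geou ρ τ κ c s dl hKD D S hS
  obtain ⟨K, hK, hM⟩ := hM g hg
  refine ⟨K, hK, fun t ht hn => ?_⟩
  obtain ⟨p, y', hp1, hp2, hp3, hy', hux⟩ := hM _ ht hn
  have hpn : 1 ≤ p.nc := by rw [← Pool.Agent.TH563.Z.shape_nc p, hp1]; exact hn
  obtain ⟨h1, h2⟩ := hG p hp2 hp3 hpn
  rw [hp1] at h1
  exact ⟨_, h1, h2 t hp1⟩

theorem mainU0 : ∃ K : ℕ, ∀ t : Tree, Fine K t → 1 ≤ t.children →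
    ∃ V : ℝ, IsGreatest {W : ℝ | ∃ y : AngleTree, y.tree = t ∧ IsAngle y ∧ vol y = W} V ∧
      Unq t V := by
  obtain ⟨K, hK0, hM⟩ := finvu
    (mainv Pool.Agent.TH761.J1737.vf vt_mw Pool.Agent.TH921.J1739.vfx
    Pool.Agent.TH416.J1740.vtx vl_last Pool.Agent.TH886.vlt_last
    Pool.Agent.TH554.J1743.hc Pool.Agent.TH790.J1744.hx Pool.Agent.TH822.J362.sdz f_kerv
    Pool.Agent.TH563.Z.f_kxcz
    Pool.Agent.TH653.J366.rem Pool.Agent.TH653.J366.half Pool.Agent.TH596.J367.ineq)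
  refine ⟨⌈K⌉₊, fun t ht hc => ?_⟩
  have hl := okT_mono hK0.le (Nat.le_ceil K) (fine_ok _ t ht)
  obtain ⟨V, h1, h2⟩ := hM t hl (by rw [nc_to]; exact hc)
  refine ⟨V, ?_, h2⟩
  rw [volume_eq]
  exact h1

/-! ### Monotonicity of the class -/

lemma big_mono {K K' : ℕ} (h : K ≤ K') {b : Bool} {n : ℕ} {a : ℤ} (hb : Tree.Big K' b n a) :
    Tree.Big K b n a := by
  unfold Tree.Big at hb ⊢
  rcases hb with hb | hb
  · exact Or.inl hb
  · right
    have h1 : (K : ℤ) ≤ K' := by exact_mod_cast h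
    have h2 : (0 : ℤ) ≤ K := by positivity
    nlinarith

lemma fineBelow_mono {K K' : ℕ} (h : K ≤ K') : ∀ (t : Tree) (g g' : Prop), (g' → g) →
    FineBelow K' g' t → FineBelow K g t
  | .single _ _, _, _, _, _ => trivial
  | .join t c, g, g', hg, ⟨h1, h2, h3⟩ => by
    refine ⟨fineBelow_mono h t g g' hg h1, fineBelow_mono h c _ _ (big_mono h) h2, ?_⟩
    rcases h3 with h3 | ⟨h3, h4⟩
    · exact Or.inl (big_mono h h3)
    · exact Or.inr ⟨hg h3, h4⟩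

lemma fine_mono {K K' : ℕ} (h : K ≤ K') {t : Tree} (ht : Fine K' t) : Fine K t := by
  obtain ⟨h1, h2⟩ := ht
  refine ⟨?_, fineBelow_mono h t _ _ (big_mono h) h2⟩
  rcases h1 with h1 | h1
  · exact Or.inl (big_mono h h1)
  · exact Or.inr h1

/-- The expansion to all orders of the Kashaev invariants of the links of all trees of the class
`Fine K`; the exponent is the complex volume, which is unique modulo `i π²`. -/
theorem mainU : ∃ K : ℕ, ∀ t : Tree, Fine K t → 1 ≤ t.children →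
    (∀ N : ℕ, ContinuousAt (jones t N) (root N)) ∧
    ∃ V C : ℝ, IsGreatest {W : ℝ | ∃ y : AngleTree, y.tree = t ∧ IsAngle y ∧ vol y = W} V ∧
      (∀ C' : ℝ, HasCS t V C' ↔ ∃ k : ℤ, C' = C + k * Real.pi ^ 2) ∧
      (∀ e f : ℤ, ∃ (C : ℝ) (y : ℕ → ℂ), HasCS t V C ∧
        y 0 ≠ 0 ∧ EXY (kashaev e f t) ((V + Complex.I * C) / (2 * Real.pi)) y) ∧
      (∀ s : Tree, t = s.double → HasCS t V 0 ∧ ∃ x : ℕ → ℝ, 0 < x 0 ∧
        EXY (kashaev (4 * s.circles) 1 t) ((V / (2 * Real.pi) : ℝ) : ℂ)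
          (fun k => (x k : ℂ))) ∧
      (t.weight = 0 → (t.kids.map Tree.mirror).Perm t.kids → HasCS t V 0 ∧
        ∃ (f : ℤ) (x : ℕ → ℝ), x 0 ≠ 0 ∧
        (∀ N : ℕ, 2 ≤ N → ∃ r : ℝ, kashaev (2 * t.circles) f t N = r) ∧
        EXY (kashaev (2 * t.circles) f t) ((V / (2 * Real.pi) : ℝ) : ℂ)
          (fun k => (x k : ℂ))) := by
  obtain ⟨K1, hK1⟩ := mainCS
  obtain ⟨K2, hK2⟩ := mainU0
  refine ⟨max K1 K2, fun t ht hc => ?_⟩
  obtain ⟨h1, V, h2, h3, h4, h5⟩ := hK1 t (fine_mono (le_max_left _ _) ht) hc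
  obtain ⟨V', g1, g2⟩ := hK2 t (fine_mono (le_max_right _ _) ht) hc
  obtain rfl : V' = V := g1.unique h2
  obtain ⟨C, y, hC, -, -⟩ := h3 0 0
  refine ⟨h1, V', C, h2, fun C' => ⟨fun hC' => ?_, ?_⟩, h3, h4, h5⟩
  · obtain ⟨x, x1, x2, x3, x4, n, x5⟩ := hC
    obtain ⟨z, z1, z2, z3, z4, m, z5⟩ := hC'
    obtain ⟨j, hj⟩ := g2 x z ⟨x1, x2, x3, x4⟩ ⟨z1, z2, z3, z4⟩
    refine ⟨n - m - j, ?_⟩
    have e1 : ((C' : ℂ)) = ((C + (n - m - j : ℤ) * Real.pi ^ 2 : ℝ) : ℂ) := by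
      push_cast
      linear_combination x5 - z5 - hj + ((C' : ℂ) - C) * Complex.I_sq
    exact_mod_cast e1
  · rintro ⟨k, rfl⟩
    obtain ⟨x, x1, x2, x3, x4, n, x5⟩ := hC
    refine ⟨x, x1, x2, x3, x4, n - k, ?_⟩
    push_cast
    linear_combination x5 + (k : ℂ) * (Real.pi : ℂ) ^ 2 * Complex.I_sq

end Pool.Agent.TH563.CU
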