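import Pool.Agent.TH563.CU.ValU

/-!
# The complex volume is the value of Neumann's sum for every flattening
-/

set_option autoImplicit false

namespace Pool.Agent.TH563.CU

open Pool.Agent.TH563.CV
open Pool.Agent.TH563.UV.Arb
open Pool.Agent.TH563.V.Arb
open Pool.Agent.W719.AX (EXY)

/-- `mainU` with one more clause: for every flattening of an angle structure of maximal volume, with
every order of the vertices, the sum of the extended Rogers dilogarithms is `i (V + i C)` modulo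
`π²`. -/
theorem mainX : ∃ K : ℕ, ∀ t : Tree, Fine K t → 1 ≤ t.children →
    (∀ N : ℕ, ContinuousAt (jones t N) (root N)) ∧
    ∃ V C : ℝ, IsGreatest {W : ℝ | ∃ y : AngleTree, y.tree = t ∧ IsAngle y ∧ vol y = W} V ∧
      (∀ C' : ℝ, HasCS t V C' ↔ ∃ k : ℤ, C' = C + k * Real.pi ^ 2) ∧
      (∀ x : FlatTree, x.angles.tree = t → IsAngle x.angles → vol x.angles = V → x.IsFlat →
        ∃ k : ℤ, x.complexVolume = Complex.I * (V + Complex.I * C) + k * (Real.pi : ℂ) ^ 2) ∧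
      (∀ e f : ℤ, ∃ (C : ℝ) (y : ℕ → ℂ), HasCS t V C ∧
        y 0 ≠ 0 ∧ EXY (kashaev e f t) ((V + Complex.I * C) / (2 * Real.pi)) y) ∧
      (∀ s : Tree, t = s.double → HasCS t V 0 ∧ ∃ x : ℕ → ℝ, 0 < x 0 ∧
        EXY (kashaev (4 * s.circles) 1 t) ((V / (2 * Real.pi) : ℝ) : ℂ)
          (fun k => (x k : ℂ))) ∧
      (t.weight = 0 → (t.kids.map Tree.mirror).Perm t.kids → HasCS t V 0 ∧
        ∃ (f : ℤ) (x : ℕ → ℝ), x 0 ≠ 0 ∧
        (∀ N : ℕ, 2 ≤ N → ∃ r : ℝ, kashaev (2 * t.circles) f t N = r) ∧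
        EXY (kashaev (2 * t.circles) f t) ((V / (2 * Real.pi) : ℝ) : ℂ)
          (fun k => (x k : ℂ))) := by
  obtain ⟨K1, hK1⟩ := mainU
  obtain ⟨K2, hK2⟩ := mainU0
  refine ⟨max K1 K2, fun t ht hc => ?_⟩
  obtain ⟨h1, V, C, h2, hC, h3, h4, h5⟩ := hK1 t (fine_mono (le_max_left _ _) ht) hc
  obtain ⟨V', g1, g2⟩ := hK2 t (fine_mono (le_max_right _ _) ht) hc
  obtain rfl : V' = V := g1.unique h2
  refine ⟨h1, V', C, h2, hC, fun x x1 x2 x3 x4 => ?_, h3, h4, h5⟩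
  obtain ⟨z, z1, z2, z3, z4, n, z5⟩ := (hC C).2 ⟨0, by simp⟩
  obtain ⟨j, hj⟩ := g2 z x ⟨z1, z2, z3, z4⟩ ⟨x1, x2, x3, x4⟩
  refine ⟨j - n, ?_⟩
  rw [hj]
  push_cast
  linear_combination (-1 : ℂ) * z5

end Pool.Agent.TH563.CU
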